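import Pool.Agent.Q86.AMWitt

set_option autoImplicit false

open Pool.Agent.Q86.AMEnv

/-- There are non-isomorphic affine Hopf algebras whose Arens-Michael envelopes are isomorphic as
Hopf `⊗̂`-algebras. -/
theorem Pool.Agent.Results.MP_e2f694_an.SameEnvelope.result :
    ∃ H K : HopfAlg, H.IsAffine ∧ K.IsAffine ∧ ¬ Isomorphic H K ∧
      Nonempty (HopfEnvelope H) ∧ Nonempty (HopfEnvelope K) ∧
      ∀ (P : HopfEnvelope H) (Q : HopfEnvelope K), IsoHopf P Q :=
  ⟨wittAlg, trivAlg, isAffine_witt, isAffine_triv, not_isomorphic, collapses_witt.nonempty,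
    collapses_triv.nonempty, collapses_witt.isoHopf collapses_triv⟩
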